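import Pool.Agent.Lib.MP_28303a_al.NT.ER.Defs

/-! # KG: the system with one tree -/

set_option autoImplicit false
set_option linter.unusedSectionVars false
set_option linter.unusedVariables false

namespace Pool.Agent.NegK.NT.ER68

universe u

open CategoryTheory Limits
open Pool.Agent.NegK.TW Pool.Agent.NegK.NT.ER

section

variable {k : Type u} [Ring k] {Γ : Type u} [Group Γ] {B B' : Type u} [MulAction Γ B]
  [MulAction Γ B'] {P : Pre Γ B} {Q : Pre Γ B'}

/-- All locations are `b`. -/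
abbrev cn (Q : Pre Γ B') (b : B') (A : Loc k P) : Loc k Q := ⟨A.ι, fun _ => b⟩

/-- All locations are `b`; there is no condition on the supports in `Q`. -/
noncomputable def fl (k : Type u) [Ring k] (P : Pre Γ B) {Q : Pre Γ B'} (hQ : ∀ x y, Q.le x y)
    (b : B') : Loc k P ⥤ Loc k Q where
  obj A := cn Q b A
  map f := ⟨f.1, fun _ _ _ _ => hQ _ _⟩
  map_id A := rfl
  map_comp f g := rfl

instance (hQ : ∀ x y, Q.le x y) (b : B') : (fl k P hQ b).Additive where
  map_add := rfl

theorem keepFin_fl (hQ : ∀ x y, Q.le x y) (b : B') : KeepFin (fl k P hQ b) :=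
  ⟨fun _ h => h, fun _ h => h⟩

end

variable {Γ : Type u} [Group Γ]

/-- The system with the one tree `j`. -/
def one (T : Sys Γ) (j : Fin T.m) : Sys Γ where
  m := 1
  B _ := T.B j
  act _ := T.act j
  ord _ := T.ord j
  mono _ := T.mono j
  dir _ := T.dir j
  ne _ := T.ne j

variable (T : Sys Γ) (j : Fin T.m)

/-- The only tree. -/
def i0 : Fin (one T j).m := (0 : Fin 1)

theorem eq0 (i : Fin (one T j).m) : i = i0 T j := Subsingleton.elim (α := Fin 1) i 0

/-- The coordinate `j`. -/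
def mU : Loc.Mono (T.P {j}) ((one T j).P Finset.univ) where
  φ x := fun _ => x j
  smul _ _ := rfl
  le h _ _ := h j (Finset.mem_singleton_self j)

/-- The coordinate `j`. -/
def m0 : Loc.Mono (T.P ∅) ((one T j).P ∅) where
  φ x := fun _ => x j
  smul _ _ := rfl
  le _ i hi := absurd hi (Finset.notMem_empty i)

theorem le0 (T : Sys Γ) (x y : T.Box) : (T.P ∅).le x y :=
  fun i hi => absurd hi (Finset.notMem_empty i)

/-- Forgetting the locations and taking the coordinate `j` is the identity. -/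
noncomputable def sq (k : Type u) [Ring k] (b : T.Box) :
    fl k ((one T j).P ∅) (le0 T) b ⋙ Loc.push (m0 T j) ≅
      Loc.push ((one T j).fg (Finset.Subset.refl ∅)) where
  hom :=
    { app := fun A => ⟨LinearMap.id, fun _ _ _ _ => le0 (one T j) _ _⟩
      naturality := fun A A' f => rfl }
  inv :=
    { app := fun A => ⟨LinearMap.id, fun _ _ _ _ => le0 (one T j) _ _⟩
      naturality := fun A A' f => rfl }
  hom_inv_id := rfl
  inv_hom_id := rfl

theorem lifts (k : Type u) [Ring k]
    (hL : ∀ X : KK k (T.P ∅), Per X → ∃ D : KK k (T.P {j}), Per D ∧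
      Nonempty ((T.L k (Finset.empty_subset {j})).obj D ≅ X)) : (one T j).LIFTS k := by
  intro X hX
  let b : T.Box := fun i => Classical.arbitrary _
  obtain ⟨D, hD, ⟨e⟩⟩ := hL ((hk (fl k ((one T j).P ∅) (le0 T) b)).obj X)
    (per_hk _ (keepFin_fl (le0 T) b) hX)
  refine ⟨(hk (Loc.push (mU T j))).obj D, per_hk _ (keepFin_push _) hD, ⟨?_⟩⟩
  have e1 : hk (Loc.push (k := k) (mU T j)) ⋙ (one T j).L k (Finset.empty_subset _) ≅
      T.L k (Finset.empty_subset {j}) ⋙ hk (Loc.push (m0 T j)) :=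
    hkSq _ _ _ _ (Iso.refl _)
  have e2 : hk (fl k ((one T j).P ∅) (le0 T) b) ⋙ hk (Loc.push (m0 T j)) ≅
      𝟭 (KK k ((one T j).P ∅)) :=
    hkComp _ _ ≪≫ hkIso (sq T j k b) ≪≫ H15.Lid k ∅ (Finset.Subset.refl ∅)
  exact e1.app D ≪≫ (hk (Loc.push (m0 T j))).mapIso e ≪≫ e2.app X

/-- KG. -/
theorem kg : KgStatement.{u} := by
  intro Γ _ T j hsz k _ hL
  obtain ⟨sz, hsz1, hsz2⟩ := hsz
  have hs : (one T j).Sized := ⟨fun x => sz (x (i0 T j)), fun g x => hsz1 g (x (i0 T j)),
    fun x y h hne => hsz2 _ _ (h (i0 T j)) fun e => hne (funext fun i => by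
      rw [eq0 T j i]
      exact e)⟩
  have h := kgenS (one T j) hs k (lifts T j k hL)
  rw [eq_top_iff, ← h]
  refine iSup_le fun U => ?_
  have hst : MulAction.stabilizer Γ U ≤ MulAction.stabilizer Γ (U (i0 T j) : T.B j) :=
    fun g hg => congrFun hg (i0 T j)
  exact le_trans (img_le hst)
    (le_iSup (fun x : T.B j => img k (MulAction.stabilizer Γ x)) (U (i0 T j)))

end Pool.Agent.NegK.NT.ER68
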